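import Mathlib

/-!
# Products of gap bounds (pinned sums), merging lemma
-/

namespace Pool.Agent.Lib.MP_688fd0_co.TE

namespace H92

/-- Product of the gap bounds: the gaps `l` (each followed by a pin) and the last gap `r`. -/
noncomputable def gp (E : ℕ → ℕ → ℝ) : ℕ → List ℕ → ℕ → ℝ
  | i, [], r => E i r
  | i, t :: l, r => E i t * gp E (i + t + 1) l r

open scoped Classical in
/-- Weight of a gap: `d ^ 4` if it is not sparse. -/
noncomputable def gwt (sp : ℕ → Prop) (d : ℝ) (i r : ℕ) : ℝ := if 1 ≤ r ∨ sp i then d ^ 4 else 1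

/-- Product of the weights of the gaps. -/
noncomputable def gwp (sp : ℕ → Prop) (d : ℝ) : ℕ → List ℕ → ℕ → ℝ
  | i, [], r => gwt sp d i r
  | i, t :: l, r => gwt sp d i t * gwp sp d (i + t + 1) l r

/-- Hypotheses on the gap bounds `E i r` (kernels through `r` slots from slot `i`). -/
structure GapH (E : ℕ → ℕ → ℝ) (sp : ℕ → Prop) (d n : ℝ) (L0 s0 a : ℕ) : Prop where
  d0 : 0 < d
  d1 : d ≤ 1 / 2
  L1 : 1 ≤ L0
  nn : ∀ i r, 0 ≤ E i r
  le : ∀ i r, i + r ≤ a → E i r ≤ gwt sp d i r
  mg : ∀ i r s, i + r + 1 + s ≤ a → L0 ≤ r ∨ L0 ≤ s →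
    E i r * E (i + r + 1) s * d ^ 4 ≤
      2 * gwt sp d i r * gwt sp d (i + r + 1) s * E i (r + 1 + s)
  lo : ∀ i r, i + r ≤ a → 1 / n ≤ E i r
  ds : d ^ s0 ≤ 1 / n
  sp2 : ∀ j, j < a → sp j ∨ sp (j + 1)

variable {E : ℕ → ℕ → ℝ} {sp : ℕ → Prop} {d n : ℝ} {L0 s0 a : ℕ}

theorem gwt_pos (hd : 0 < d) (i r : ℕ) : 0 < gwt sp d i r := by
  unfold gwt; split
  · positivity
  · norm_num

theorem gwp_pos (hd : 0 < d) : ∀ (l : List ℕ) (i r : ℕ), 0 < gwp sp d i l r
  | [], i, r => gwt_pos hd i r
  | t :: l, i, r => mul_pos (gwt_pos hd i t) (gwp_pos hd l _ r)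

theorem gp_nonneg (hE : ∀ i r, 0 ≤ E i r) : ∀ (l : List ℕ) (i r : ℕ), 0 ≤ gp E i l r
  | [], i, r => hE i r
  | t :: l, i, r => mul_nonneg (hE i t) (gp_nonneg hE l _ r)

theorem gwt_big (hL : 1 ≤ L0) {r : ℕ} (hr : L0 ≤ r) (i : ℕ) : gwt sp d i r = d ^ 4 := by
  unfold gwt
  exact if_pos (Or.inl (hL.trans hr))

/-- Merging to the right of a long gap. -/
theorem merge_right (h : GapH E sp d n L0 s0 a) : ∀ (l : List ℕ) (i t r : ℕ), L0 ≤ t →
    i + t + 1 + (l.sum + l.length + r) ≤ a →
    E i t * gp E (i + t + 1) l r ≤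
      2 ^ (l.length + 1) * gwp sp d (i + t + 1) l r * E i (t + 1 + (l.sum + l.length + r))
  | [], i, t, r, ht, ha => by
    have h1 := h.mg i t r (by simpa using ha) (Or.inl ht)
    rw [gwt_big h.L1 ht] at h1
    have hd : 0 < d ^ 4 := pow_pos h.d0 4
    simp only [gp, gwp, List.sum_nil, List.length_nil, zero_add, pow_one]
    have h2 : (E i t * E (i + t + 1) r) * d ^ 4 ≤
        (2 * gwt sp d (i + t + 1) r * E i (t + 1 + r)) * d ^ 4 := by linarith
    exact le_of_mul_le_mul_right h2 hd
  | s :: l, i, t, r, ht, ha => by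
    have hsum : (s :: l).sum + (s :: l).length + r = s + 1 + (l.sum + l.length + r) := by
      simp only [List.sum_cons, List.length_cons]; ring
    rw [hsum] at ha ⊢
    have h1 := h.mg i t s (by omega) (Or.inl ht)
    rw [gwt_big h.L1 ht] at h1
    have hd : 0 < d ^ 4 := pow_pos h.d0 4
    have h2 : (E i t * E (i + t + 1) s) * d ^ 4 ≤
        (2 * gwt sp d (i + t + 1) s * E i (t + 1 + s)) * d ^ 4 := by linarith
    have h3 : E i t * E (i + t + 1) s ≤ 2 * gwt sp d (i + t + 1) s * E i (t + 1 + s) :=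
      le_of_mul_le_mul_right h2 hd
    have hg := gp_nonneg h.nn l (i + t + 1 + s + 1) r
    have e1 : i + t + 1 + s + 1 = i + (t + 1 + s) + 1 := by ring
    have h4 := merge_right h l i (t + 1 + s) r (by omega) (by omega)
    rw [← e1] at h4
    have hw := gwt_pos (sp := sp) h.d0 (i + t + 1) s
    calc E i t * gp E (i + t + 1) (s :: l) r
        = (E i t * E (i + t + 1) s) * gp E (i + t + 1 + s + 1) l r := by
          simp only [gp]; ring
      _ ≤ (2 * gwt sp d (i + t + 1) s * E i (t + 1 + s)) * gp E (i + t + 1 + s + 1) l r :=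
          mul_le_mul_of_nonneg_right h3 hg
      _ = (2 * gwt sp d (i + t + 1) s) * (E i (t + 1 + s) * gp E (i + t + 1 + s + 1) l r) := by
          ring
      _ ≤ (2 * gwt sp d (i + t + 1) s) * (2 ^ (l.length + 1) *
            gwp sp d (i + t + 1 + s + 1) l r *
            E i (t + 1 + s + 1 + (l.sum + l.length + r))) :=
          mul_le_mul_of_nonneg_left h4 (by positivity)
      _ = 2 ^ ((s :: l).length + 1) * gwp sp d (i + t + 1) (s :: l) r *
            E i (t + 1 + (s + 1 + (l.sum + l.length + r))) := by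
          simp only [gwp, List.length_cons]
          have e2 : t + 1 + s + 1 + (l.sum + l.length + r) =
            t + 1 + (s + 1 + (l.sum + l.length + r)) := by ring
          rw [e2]; ring

/-- Merging everything into a long gap. -/
theorem merge_all (h : GapH E sp d n L0 s0 a) : ∀ (l : List ℕ) (i r : ℕ),
    ((∃ t ∈ l, L0 ≤ t) ∨ L0 ≤ r) → i + (l.sum + l.length + r) ≤ a →
    gp E i l r * d ^ 4 ≤ 2 ^ l.length * gwp sp d i l r * E i (l.sum + l.length + r)
  | [], i, r, hb, ha => by
    have hr : L0 ≤ r := by simpa using hb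
    simp only [gp, gwp, List.sum_nil, List.length_nil, zero_add, pow_zero]
    rw [gwt_big h.L1 hr]
    linarith
  | t :: l, i, r, hb, ha => by
    have hsum : (t :: l).sum + (t :: l).length + r = t + 1 + (l.sum + l.length + r) := by
      simp only [List.sum_cons, List.length_cons]; ring
    rw [hsum] at ha ⊢
    have hd : 0 < d ^ 4 := pow_pos h.d0 4
    have hwp := gwp_pos (sp := sp) h.d0 l (i + t + 1) r
    have hwt := gwt_pos (sp := sp) h.d0 i t
    by_cases hc : (∃ t ∈ l, L0 ≤ t) ∨ L0 ≤ r
    · have h1 := merge_all h l (i + t + 1) r hc (by omega)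
      have hbig : L0 ≤ l.sum + l.length + r := by
        rcases hc with ⟨t', ht', hL⟩ | hL
        · have := List.single_le_sum (l := l) (fun _ _ => Nat.zero_le _) t' ht'
          omega
        · omega
      have h2 := h.mg i t (l.sum + l.length + r) (by omega) (Or.inr hbig)
      rw [gwt_big h.L1 hbig] at h2
      have h2' : (E i t * E (i + t + 1) (l.sum + l.length + r)) * d ^ 4 ≤
          (2 * gwt sp d i t * E i (t + 1 + (l.sum + l.length + r))) * d ^ 4 := by linarith
      have h3 := le_of_mul_le_mul_right h2' hd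
      calc gp E i (t :: l) r * d ^ 4 = E i t * (gp E (i + t + 1) l r * d ^ 4) := by
            simp only [gp]; ring
        _ ≤ E i t * (2 ^ l.length * gwp sp d (i + t + 1) l r *
              E (i + t + 1) (l.sum + l.length + r)) :=
            mul_le_mul_of_nonneg_left h1 (h.nn i t)
        _ = (2 ^ l.length * gwp sp d (i + t + 1) l r) *
              (E i t * E (i + t + 1) (l.sum + l.length + r)) := by ring
        _ ≤ (2 ^ l.length * gwp sp d (i + t + 1) l r) *
              (2 * gwt sp d i t * E i (t + 1 + (l.sum + l.length + r))) :=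
            mul_le_mul_of_nonneg_left h3 (by positivity)
        _ = 2 ^ (t :: l).length * gwp sp d i (t :: l) r *
              E i (t + 1 + (l.sum + l.length + r)) := by
            simp only [gwp, List.length_cons]; ring
    · have ht : L0 ≤ t := by
        rcases hb with ⟨t', ht', hL⟩ | hL
        · rcases List.mem_cons.1 ht' with rfl | ht''
          · exact hL
          · exact absurd (Or.inl ⟨t', ht'', hL⟩) hc
        · exact absurd (Or.inr hL) hc
      have h1 := merge_right h l i t r ht (by omega)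
      calc gp E i (t :: l) r * d ^ 4 = (E i t * gp E (i + t + 1) l r) * d ^ 4 := by
            simp only [gp]
        _ ≤ (2 ^ (l.length + 1) * gwp sp d (i + t + 1) l r *
              E i (t + 1 + (l.sum + l.length + r))) * d ^ 4 :=
            mul_le_mul_of_nonneg_right h1 hd.le
        _ = 2 ^ (t :: l).length * gwp sp d i (t :: l) r *
              E i (t + 1 + (l.sum + l.length + r)) := by
            simp only [gwp, List.length_cons, gwt_big h.L1 ht]; ring

/-- At least half of the gaps are not sparse. -/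
theorem gwp_le (h : GapH E sp d n L0 s0 a) : ∀ (l : List ℕ) (i r : ℕ),
    i + (l.sum + l.length + r) ≤ a → sp (i + (l.sum + l.length + r)) →
    gwp sp d i l r ≤ d ^ (2 * l.length + 2) ∧
      ((l = [] ∨ sp i ∨ ∃ t l', l = t :: l' ∧ 1 ≤ t) → gwp sp d i l r ≤ d ^ (2 * l.length + 4))
  | [], i, r, ha, hs => by
    simp only [List.sum_nil, List.length_nil, zero_add] at ha hs
    have hw : gwt sp d i r = d ^ 4 := by
      unfold gwt
      refine if_pos ?_
      rcases Nat.eq_zero_or_pos r with rfl | hr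
      · right; simpa using hs
      · left; exact hr
    simp only [gwp, List.length_nil, Nat.mul_zero, zero_add]
    rw [hw]
    exact ⟨pow_le_pow_of_le_one h.d0.le (h.d1.trans (by norm_num)) (by norm_num), fun _ => le_rfl⟩
  | t :: l, i, r, ha, hs => by
    have hsum : (t :: l).sum + (t :: l).length + r = t + 1 + (l.sum + l.length + r) := by
      simp only [List.sum_cons, List.length_cons]; ring
    rw [hsum] at ha hs
    have e1 : i + (t + 1 + (l.sum + l.length + r)) = i + t + 1 + (l.sum + l.length + r) := by ring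
    rw [e1] at ha hs
    obtain ⟨h1, h2⟩ := gwp_le h l (i + t + 1) r ha hs
    have hd1 : d ≤ 1 := h.d1.trans (by norm_num)
    have hwp := gwp_pos (sp := sp) h.d0 l (i + t + 1) r
    have hd4 : 0 < d ^ 4 := pow_pos h.d0 4
    -- nonsparse first gap
    have key1 : (1 ≤ t ∨ sp i) → gwp sp d i (t :: l) r ≤ d ^ (2 * (t :: l).length + 4) := by
      intro hns
      have hw : gwt sp d i t = d ^ 4 := if_pos hns
      simp only [gwp, List.length_cons]
      rw [hw]
      calc d ^ 4 * gwp sp d (i + t + 1) l r ≤ d ^ 4 * d ^ (2 * l.length + 2) :=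
            mul_le_mul_of_nonneg_left h1 hd4.le
        _ = d ^ (2 * (l.length + 1) + 4) := by ring
    constructor
    · by_cases hns : 1 ≤ t ∨ sp i
      · exact (key1 hns).trans (pow_le_pow_of_le_one h.d0.le hd1 (by omega))
      · have ht0 : t = 0 := by
          by_contra h0
          exact hns (Or.inl (Nat.one_le_iff_ne_zero.2 h0))
        have hspi : ¬ sp i := fun h' => hns (Or.inr h')
        subst ht0
        have hsp1 : sp (i + 1) := by
          rcases h.sp2 i (by omega) with h' | h'
          · exact absurd h' hspi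
          · exact h'
        have h3 := h2 (Or.inr (Or.inl (by simpa using hsp1)))
        have hw : gwt sp d i 0 = 1 := if_neg hns
        simp only [gwp, List.length_cons]
        rw [hw, one_mul]
        calc gwp sp d (i + 0 + 1) l r ≤ d ^ (2 * l.length + 4) := h3
          _ = d ^ (2 * (l.length + 1) + 2) := by ring
    · intro hh
      apply key1
      rcases hh with h' | h' | ⟨t', l', h', h''⟩
      · exact absurd h' (by simp)
      · exact Or.inr h'
      · rw [List.cons.injEq] at h'
        left; omega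

theorem gp_le_gwp (h : GapH E sp d n L0 s0 a) : ∀ (l : List ℕ) (i r : ℕ),
    i + (l.sum + l.length + r) ≤ a → gp E i l r ≤ gwp sp d i l r
  | [], i, r, ha => by
    simp only [List.sum_nil, List.length_nil, zero_add] at ha
    exact h.le i r ha
  | t :: l, i, r, ha => by
    have hsum : (t :: l).sum + (t :: l).length + r = t + 1 + (l.sum + l.length + r) := by
      simp only [List.sum_cons, List.length_cons]; ring
    rw [hsum] at ha
    simp only [gp, gwp]
    exact mul_le_mul (h.le i t (by omega)) (gp_le_gwp h l _ r (by omega))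
      (gp_nonneg h.nn l _ r) (gwt_pos h.d0 i t).le

theorem sum_lt_of_short {L0 : ℕ} : ∀ (l : List ℕ), (∀ t ∈ l, t < L0) →
    l.sum + l.length ≤ l.length * L0
  | [], _ => by simp
  | t :: l, hl => by
    have h1 := sum_lt_of_short l (fun t ht => hl t (List.mem_cons_of_mem _ ht))
    have h2 := hl t List.mem_cons_self
    simp only [List.sum_cons, List.length_cons]
    nlinarith

/-- The pinned product bound: every pin gains a factor `d`. -/
theorem gp_bound (h : GapH E sp d n L0 s0 a) (l : List ℕ) (i r : ℕ)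
    (ha : i + (l.sum + l.length + r) ≤ a) (hsi : sp i) (hsr : sp (i + (l.sum + l.length + r)))
    (hr : (s0 + 1) * L0 ≤ l.sum + l.length + r + 1) :
    gp E i l r ≤ d ^ l.length * E i (l.sum + l.length + r) := by
  have hd1 : d ≤ 1 := h.d1.trans (by norm_num)
  have hw := (gwp_le h l i r ha hsr).2 (Or.inr (Or.inl hsi))
  have hE := h.lo i (l.sum + l.length + r) ha
  have hEn := h.nn i (l.sum + l.length + r)
  by_cases hc : (∃ t ∈ l, L0 ≤ t) ∨ L0 ≤ r
  · have h1 := merge_all h l i r hc ha
    have hd4 : 0 < d ^ 4 := pow_pos h.d0 4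
    have h2 : gp E i l r * d ^ 4 ≤ (d ^ l.length * E i (l.sum + l.length + r)) * d ^ 4 := by
      calc gp E i l r * d ^ 4 ≤ 2 ^ l.length * gwp sp d i l r * E i (l.sum + l.length + r) := h1
        _ ≤ 2 ^ l.length * d ^ (2 * l.length + 4) * E i (l.sum + l.length + r) :=
            mul_le_mul_of_nonneg_right (mul_le_mul_of_nonneg_left hw (by positivity)) hEn
        _ = (2 * d) ^ l.length * (d ^ l.length * E i (l.sum + l.length + r) * d ^ 4) := by
            rw [mul_pow]; ring
        _ ≤ 1 * (d ^ l.length * E i (l.sum + l.length + r) * d ^ 4) := by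
            refine mul_le_mul_of_nonneg_right ?_ ?_
            · exact pow_le_one₀ (by linarith [h.d0]) (by linarith [h.d1])
            · have := pow_pos h.d0 l.length
              positivity
        _ = _ := one_mul _
    exact le_of_mul_le_mul_right h2 hd4
  · have hshort : ∀ t ∈ l, t < L0 := fun t ht => by
      by_contra h'
      exact hc (Or.inl ⟨t, ht, not_lt.1 h'⟩)
    have hrs : r < L0 := by
      by_contra h'
      exact hc (Or.inr (not_lt.1 h'))
    have h1 := sum_lt_of_short l hshort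
    have hs : s0 ≤ l.length := by
      by_contra h'
      have h2 : l.length + 1 ≤ s0 := by omega
      have h3 : (l.length + 1 + 1) * L0 ≤ (s0 + 1) * L0 := Nat.mul_le_mul_right _ (by omega)
      have h4 : (l.length + 1 + 1) * L0 = l.length * L0 + L0 + L0 := by ring
      have := h.L1
      omega
    calc gp E i l r ≤ gwp sp d i l r := gp_le_gwp h l i r ha
      _ ≤ d ^ (2 * l.length + 4) := hw
      _ ≤ d ^ (l.length + s0) := pow_le_pow_of_le_one h.d0.le hd1 (by omega)
      _ = d ^ l.length * d ^ s0 := pow_add _ _ _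
      _ ≤ d ^ l.length * (1 / n) := mul_le_mul_of_nonneg_left h.ds (pow_pos h.d0 _).le
      _ ≤ d ^ l.length * E i (l.sum + l.length + r) :=
          mul_le_mul_of_nonneg_left hE (pow_pos h.d0 _).le

/-- Sum over all positions of `s` pins of the products of gap bounds. -/
noncomputable def SW (E : ℕ → ℕ → ℝ) (θ : ℝ) : ℕ → ℕ → ℕ → ℝ
  | 0, i, r => E i r
  | s + 1, i, r => ∑ t ∈ Finset.range r, θ * E i t * SW E θ s (i + t + 1) (r - 1 - t)

theorem SW_nonneg {E : ℕ → ℕ → ℝ} (hE : ∀ i r, 0 ≤ E i r) {θ : ℝ} (hθ : 0 ≤ θ) :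
    ∀ s i r, 0 ≤ SW E θ s i r
  | 0, i, r => hE i r
  | s + 1, i, r => Finset.sum_nonneg fun t _ =>
      mul_nonneg (mul_nonneg hθ (hE i t)) (SW_nonneg hE hθ s _ _)

theorem SW_le {E : ℕ → ℕ → ℝ} (hE : ∀ i r, 0 ≤ E i r) {θ : ℝ} (hθ : 0 ≤ θ) (R : ℕ) :
    ∀ (s i r : ℕ) (c B : ℝ), r ≤ R → 0 ≤ c → 0 ≤ B →
    (∀ (l : List ℕ) (r' : ℕ), l.length = s → l.sum + l.length + r' = r → c * gp E i l r' ≤ B) →
    c * SW E θ s i r ≤ (θ * R) ^ s * B
  | 0, _, r, c, B, _, _, _, h => by
    have := h [] r rfl (by simp)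
    simpa [SW, gp] using this
  | s + 1, i, r, c, B, hr, hc, hB, h => by
    have h1 : ∀ t ∈ Finset.range r,
        c * (θ * E i t * SW E θ s (i + t + 1) (r - 1 - t)) ≤ θ * ((θ * R) ^ s * B) := by
      intro t ht
      have ht' := Finset.mem_range.1 ht
      have h2 := SW_le hE hθ R s (i + t + 1) (r - 1 - t) (c * E i t) B (by omega)
        (mul_nonneg hc (hE i t)) hB (by
          intro l r' hl hlr
          have h3 := h (t :: l) r' (by simp [hl]) (by
            simp only [List.sum_cons, List.length_cons]; omega)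
          simpa [gp, mul_assoc] using h3)
      calc c * (θ * E i t * SW E θ s (i + t + 1) (r - 1 - t))
          = θ * ((c * E i t) * SW E θ s (i + t + 1) (r - 1 - t)) := by ring
        _ ≤ _ := mul_le_mul_of_nonneg_left h2 hθ
    calc c * SW E θ (s + 1) i r
        = ∑ t ∈ Finset.range r, c * (θ * E i t * SW E θ s (i + t + 1) (r - 1 - t)) := by
          simp only [SW]; rw [Finset.mul_sum]
      _ ≤ ∑ t ∈ Finset.range r, θ * ((θ * R) ^ s * B) := Finset.sum_le_sum h1
      _ = r * (θ * ((θ * R) ^ s * B)) := by rw [Finset.sum_const, Finset.card_range, nsmul_eq_mul]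
      _ ≤ R * (θ * ((θ * R) ^ s * B)) := by
          refine mul_le_mul_of_nonneg_right (by exact_mod_cast hr) ?_
          positivity
      _ = (θ * R) ^ (s + 1) * B := by ring

/-- Total of the sums with at least one pin. -/
theorem sum_SW_le (h : GapH E sp d n L0 s0 a) {θ : ℝ} (hθ : 0 ≤ θ) (i r : ℕ)
    (ha : i + r ≤ a) (hsi : sp i) (hsr : sp (i + r)) (hr : (s0 + 1) * L0 ≤ r + 1)
    (hsm : θ * a * d ≤ 1 / 2) :
    ∑ s ∈ Finset.range r, SW E θ (s + 1) i r ≤ 2 * (θ * a * d) * E i r := by
  have hE := h.nn i r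
  have h0 : 0 ≤ θ * a * d := mul_nonneg (mul_nonneg hθ (Nat.cast_nonneg _)) h.d0.le
  have h1 : ∀ s, SW E θ s i r ≤ (θ * a * d) ^ s * E i r := by
    intro s
    have h2 := SW_le h.nn hθ a s i r 1 (d ^ s * E i r) (by omega) zero_le_one
      (mul_nonneg (pow_nonneg h.d0.le _) hE) (by
        intro l r' hl hlr
        rw [one_mul, ← hl, ← hlr]
        exact gp_bound h l i r' (by omega) hsi (by rw [hlr]; exact hsr) (by omega))
    rw [one_mul] at h2
    refine h2.trans (le_of_eq ?_)
    rw [mul_pow (θ * a) d s]; ring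
  have h2 : ∀ N : ℕ, ∑ s ∈ Finset.range N, (θ * a * d) ^ (s + 1) ≤ 2 * (θ * a * d) := by
    intro N
    have h3 : ∀ N : ℕ, ∑ s ∈ Finset.range N, (θ * a * d) ^ (s + 1) ≤
        2 * (θ * a * d) - (θ * a * d) ^ (N + 1) * 2 := by
      intro N
      induction N with
      | zero => simp; linarith
      | succ N ih =>
        rw [Finset.sum_range_succ]
        have h4 : (θ * a * d) ^ (N + 1 + 1) = (θ * a * d) ^ (N + 1) * (θ * a * d) := pow_succ _ _
        have h5 : 0 ≤ (θ * a * d) ^ (N + 1) := pow_nonneg h0 _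
        have h6 : (θ * a * d) ^ (N + 1) * (θ * a * d) ≤ (θ * a * d) ^ (N + 1) * (1 / 2) :=
          mul_le_mul_of_nonneg_left hsm h5
        rw [h4]
        linarith
    have h7 := h3 N
    have h8 : 0 ≤ (θ * a * d) ^ (N + 1) := pow_nonneg h0 _
    linarith
  calc ∑ s ∈ Finset.range r, SW E θ (s + 1) i r
      ≤ ∑ s ∈ Finset.range r, (θ * a * d) ^ (s + 1) * E i r := Finset.sum_le_sum fun s _ => h1 _
    _ = (∑ s ∈ Finset.range r, (θ * a * d) ^ (s + 1)) * E i r := by rw [Finset.sum_mul]
    _ ≤ _ := mul_le_mul_of_nonneg_right (h2 r) hE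

end H92

end Pool.Agent.Lib.MP_688fd0_co.TE
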