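import Pool.Agent.Lib.MP_688fd0_co.TE.Iface3
import Pool.Agent.Lib.MP_688fd0_co.TE.H92.Gap

/-!
# Labelled path sums: pinned expansion and high moments
-/

namespace Pool.Agent.Lib.MP_688fd0_co.TE

namespace H92

set_option linter.unusedSectionVars false

universe u v

/-- Data of a path model: label law `P`, exit map `ex`, connecting kernels `C`, weights `kap`. -/
structure PM (V : Type u) (Val : Type v) where
  P : V → Val → ℝ
  ex : V → Val → V
  C : ℕ → V → V → ℝ
  kap : ℕ → V → Val → ℝ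

section defs

variable {V : Type u} {Val : Type v} [Fintype V] [Fintype Val] [DecidableEq V]

/-- Path weight. -/
noncomputable def PM.pw (M : PM V Val) : ℕ → V → List (V × Val) → V → ℝ
  | j, x, [], y => M.C j x y
  | j, x, s :: l, y => M.C j x s.1 * M.kap j s.1 s.2 * M.pw (j + 1) (M.ex s.1 s.2) l y

/-- Path kernel. -/
noncomputable def PM.fk (M : PM V Val) (j r : ℕ) (x y : V) : ℝ := sumL r (fun l => M.pw j x l y)

/-- Label weight. -/
noncomputable def PM.xw (M : PM V Val) {a : ℕ} (ω : Fld a V Val) : ℕ → List (V × Val) → ℝ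
  | _, [] => 1
  | j, s :: l => ind (val ω j s.1 = some s.2) / M.P s.1 s.2 * M.xw ω (j + 1) l

/-- The product of `1 + g / P`. -/
noncomputable def PM.gw (M : PM V Val) (g : ℕ → V × Val → ℝ) : ℕ → List (V × Val) → ℝ
  | _, [] => 1
  | j, s :: l => (1 + g j s / M.P s.1 s.2) * M.gw g (j + 1) l

/-- Path sum with the weights `gw`. -/
noncomputable def PM.gs (M : PM V Val) (g : ℕ → V × Val → ℝ) (j r : ℕ) (x y : V) : ℝ :=
  sumL r (fun l => M.pw j x l y * M.gw g j l)

/-- Positivity and `kap ≤ H0 P`. -/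
structure PM.Ok (M : PM V Val) (H0 : ℝ) : Prop where
  H : 0 ≤ H0
  P0 : ∀ u e, 0 ≤ M.P u e
  C0 : ∀ j u v, 0 ≤ M.C j u v
  k0 : ∀ j u e, 0 ≤ M.kap j u e
  kH : ∀ j u e, M.kap j u e ≤ H0 * M.P u e

end defs

section sums

variable {S : Type*} [Fintype S]

theorem sumL_congr {n : ℕ} {F F' : List S → ℝ} (h : ∀ l, l.length = n → F l = F' l) :
    sumL n F = sumL n F' := by
  induction n generalizing F F' with
  | zero => simpa [sumL] using h [] rfl
  | succ n ih =>
    simp only [sumL]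
    exact Finset.sum_congr rfl fun s _ => ih fun l hl => h (s :: l) (by simp [hl])

theorem sumL_mul (n : ℕ) (c : ℝ) (F : List S → ℝ) : sumL n (fun l => c * F l) = c * sumL n F := by
  induction n generalizing F with
  | zero => simp [sumL]
  | succ n ih =>
    simp only [sumL]
    rw [Finset.mul_sum]
    exact Finset.sum_congr rfl fun s _ => ih _

theorem sumL_le {n : ℕ} {F F' : List S → ℝ} (h : ∀ l, l.length = n → F l ≤ F' l) :
    sumL n F ≤ sumL n F' := by
  induction n generalizing F F' with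
  | zero => simpa [sumL] using h [] rfl
  | succ n ih =>
    simp only [sumL]
    exact Finset.sum_le_sum fun s _ => ih fun l hl => h (s :: l) (by simp [hl])

theorem sumL_nonneg {n : ℕ} {F : List S → ℝ} (h : ∀ l, l.length = n → 0 ≤ F l) :
    0 ≤ sumL n F := by
  induction n generalizing F with
  | zero => simpa [sumL] using h [] rfl
  | succ n ih =>
    simp only [sumL]
    exact Finset.sum_nonneg fun s _ => ih fun l hl => h (s :: l) (by simp [hl])

theorem sumL_sum {Ω : Type*} [Fintype Ω] (n : ℕ) (F : Ω → List S → ℝ) :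
    sumL n (fun l => ∑ ω, F ω l) = ∑ ω, sumL n (F ω) := by
  induction n generalizing F with
  | zero => simp [sumL]
  | succ n ih =>
    simp only [sumL]
    rw [Finset.sum_comm]
    exact Finset.sum_congr rfl fun s _ => ih _

end sums

section main

variable {V : Type u} {Val : Type v} [Fintype V] [Fintype Val] [DecidableEq V] (M : PM V Val)

theorem PM.fk_zero (j : ℕ) (x y : V) : M.fk j 0 x y = M.C j x y := rfl

theorem PM.fk_succ (j r : ℕ) (x y : V) : M.fk j (r + 1) x y =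
    ∑ s : V × Val, M.C j x s.1 * M.kap j s.1 s.2 * M.fk (j + 1) r (M.ex s.1 s.2) y := by
  simp only [PM.fk, sumL]
  exact Finset.sum_congr rfl fun s _ => sumL_mul _ _ _

theorem PM.gs_zero (g : ℕ → V × Val → ℝ) (j : ℕ) (x y : V) : M.gs g j 0 x y = M.C j x y := by
  simp [PM.gs, sumL, PM.pw, PM.gw]

theorem PM.gs_succ (g : ℕ → V × Val → ℝ) (j r : ℕ) (x y : V) : M.gs g j (r + 1) x y =
    ∑ s : V × Val, M.C j x s.1 * M.kap j s.1 s.2 * (1 + g j s / M.P s.1 s.2) *
      M.gs g (j + 1) r (M.ex s.1 s.2) y := by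
  simp only [PM.gs, sumL]
  refine Finset.sum_congr rfl fun s _ => ?_
  rw [← sumL_mul]
  refine sumL_congr fun l _ => ?_
  simp only [PM.pw, PM.gw]
  ring

variable {M} {H0 : ℝ}

theorem PM.pw_nonneg (h : M.Ok H0) : ∀ (l : List (V × Val)) (j : ℕ) (x y : V), 0 ≤ M.pw j x l y
  | [], j, x, y => h.C0 j x y
  | s :: l, j, x, y => mul_nonneg (mul_nonneg (h.C0 _ _ _) (h.k0 _ _ _)) (PM.pw_nonneg h l _ _ _)

theorem PM.gw_nonneg (h : M.Ok H0) {g : ℕ → V × Val → ℝ} (hg : ∀ j s, 0 ≤ g j s) :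
    ∀ (l : List (V × Val)) (j : ℕ), 0 ≤ M.gw g j l
  | [], _ => zero_le_one
  | s :: l, j => mul_nonneg (add_nonneg zero_le_one (div_nonneg (hg j s) (h.P0 _ _)))
      (PM.gw_nonneg h hg l _)

theorem PM.gs_nonneg (h : M.Ok H0) {g : ℕ → V × Val → ℝ} (hg : ∀ j s, 0 ≤ g j s) (j r : ℕ)
    (x y : V) : 0 ≤ M.gs g j r x y :=
  sumL_nonneg fun l _ => mul_nonneg (PM.pw_nonneg h l j x y) (PM.gw_nonneg h hg l j)

theorem PM.fk_nonneg (h : M.Ok H0) (j r : ℕ) (x y : V) : 0 ≤ M.fk j r x y :=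
  sumL_nonneg fun l _ => PM.pw_nonneg h l j x y

/-- Expansion at the first pin. -/
theorem PM.gs_expand (g : ℕ → V × Val → ℝ) : ∀ (r j : ℕ) (x y : V),
    M.gs g j r x y = M.fk j r x y + ∑ t ∈ Finset.range r, ∑ s : V × Val,
      M.fk j t x s.1 * (M.kap (j + t) s.1 s.2 * (g (j + t) s / M.P s.1 s.2)) *
        M.gs g (j + t + 1) (r - 1 - t) (M.ex s.1 s.2) y
  | 0, j, x, y => by simp [PM.gs_zero, PM.fk_zero]
  | r + 1, j, x, y => by
    have ih := PM.gs_expand g r (j + 1)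
    have h1 : ∀ s : V × Val, M.C j x s.1 * M.kap j s.1 s.2 * (1 + g j s / M.P s.1 s.2) *
        M.gs g (j + 1) r (M.ex s.1 s.2) y =
        M.C j x s.1 * M.kap j s.1 s.2 * M.fk (j + 1) r (M.ex s.1 s.2) y +
        ∑ t ∈ Finset.range r, ∑ s' : V × Val,
          (M.C j x s.1 * M.kap j s.1 s.2 * M.fk (j + 1) t (M.ex s.1 s.2) s'.1) *
          (M.kap (j + 1 + t) s'.1 s'.2 * (g (j + 1 + t) s' / M.P s'.1 s'.2)) *
          M.gs g (j + 1 + t + 1) (r - 1 - t) (M.ex s'.1 s'.2) y +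
        M.C j x s.1 * (M.kap j s.1 s.2 * (g j s / M.P s.1 s.2)) *
          M.gs g (j + 1) r (M.ex s.1 s.2) y := by
      intro s
      have e1 : M.C j x s.1 * M.kap j s.1 s.2 * (1 + g j s / M.P s.1 s.2) *
          M.gs g (j + 1) r (M.ex s.1 s.2) y =
          M.C j x s.1 * M.kap j s.1 s.2 * M.gs g (j + 1) r (M.ex s.1 s.2) y +
          M.C j x s.1 * (M.kap j s.1 s.2 * (g j s / M.P s.1 s.2)) *
            M.gs g (j + 1) r (M.ex s.1 s.2) y := by ring
      rw [e1]
      congr 1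
      conv_lhs => rw [ih]
      rw [mul_add, Finset.mul_sum]
      congr 1
      refine Finset.sum_congr rfl fun t _ => ?_
      rw [Finset.mul_sum]
      refine Finset.sum_congr rfl fun s' _ => ?_
      ring
    rw [PM.gs_succ, Finset.sum_congr rfl fun s _ => h1 s, Finset.sum_add_distrib,
      Finset.sum_add_distrib, ← PM.fk_succ, Finset.sum_range_succ']
    have h2 : ∑ s : V × Val, ∑ t ∈ Finset.range r, ∑ s' : V × Val,
          (M.C j x s.1 * M.kap j s.1 s.2 * M.fk (j + 1) t (M.ex s.1 s.2) s'.1) *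
          (M.kap (j + 1 + t) s'.1 s'.2 * (g (j + 1 + t) s' / M.P s'.1 s'.2)) *
          M.gs g (j + 1 + t + 1) (r - 1 - t) (M.ex s'.1 s'.2) y =
        ∑ t ∈ Finset.range r, ∑ s' : V × Val,
          M.fk j (t + 1) x s'.1 * (M.kap (j + (t + 1)) s'.1 s'.2 *
            (g (j + (t + 1)) s' / M.P s'.1 s'.2)) *
          M.gs g (j + (t + 1) + 1) (r + 1 - 1 - (t + 1)) (M.ex s'.1 s'.2) y := by
      rw [Finset.sum_comm]
      refine Finset.sum_congr rfl fun t ht => ?_
      rw [Finset.sum_comm]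
      refine Finset.sum_congr rfl fun s' _ => ?_
      have e2 : j + 1 + t = j + (t + 1) := by ring
      have e3 : r + 1 - 1 - (t + 1) = r - 1 - t := by omega
      rw [← Finset.sum_mul, ← Finset.sum_mul, ← PM.fk_succ, e2, e3]
    rw [h2]
    have h3 : ∑ s : V × Val, M.C j x s.1 * (M.kap j s.1 s.2 * (g j s / M.P s.1 s.2)) *
          M.gs g (j + 1) r (M.ex s.1 s.2) y =
        ∑ s : V × Val, M.fk j 0 x s.1 * (M.kap (j + 0) s.1 s.2 *
          (g (j + 0) s / M.P s.1 s.2)) * M.gs g (j + 0 + 1) (r + 1 - 1 - 0) (M.ex s.1 s.2) y := by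
      refine Finset.sum_congr rfl fun s _ => ?_
      simp [PM.fk_zero]
    rw [h3]
    ring

/-- One pin costs at most `N H0` times the bounds of the two gaps. -/
theorem PM.pin_le (h : M.Ok H0) {g : ℕ → V × Val → ℝ} (hg : ∀ j s, 0 ≤ g j s) {N : ℝ}
    (hN : ∀ j, ∑ s, g j s ≤ N) (j : ℕ) {A B : ℝ} (hA : 0 ≤ A) (hB : 0 ≤ B) (f f' : V → ℝ)
    (hf0 : ∀ v, 0 ≤ f v) (hf : ∀ v, f v ≤ A) (hf' : ∀ v, f' v ≤ B) :
    ∑ s : V × Val, f s.1 * (M.kap j s.1 s.2 * (g j s / M.P s.1 s.2)) * f' (M.ex s.1 s.2) ≤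
      N * H0 * A * B := by
  have h1 : ∀ s : V × Val, M.kap j s.1 s.2 * (g j s / M.P s.1 s.2) ≤ H0 * g j s := by
    intro s
    rcases (h.P0 s.1 s.2).eq_or_lt with hP | hP
    · rw [← hP, div_zero, mul_zero]
      exact mul_nonneg h.H (hg j s)
    · rw [← mul_div_assoc, div_le_iff₀ hP]
      calc M.kap j s.1 s.2 * g j s ≤ (H0 * M.P s.1 s.2) * g j s :=
            mul_le_mul_of_nonneg_right (h.kH j s.1 s.2) (hg j s)
        _ = _ := by ring
  have h1' : ∀ s : V × Val, 0 ≤ M.kap j s.1 s.2 * (g j s / M.P s.1 s.2) := fun s =>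
    mul_nonneg (h.k0 _ _ _) (div_nonneg (hg j s) (h.P0 _ _))
  calc ∑ s : V × Val, f s.1 * (M.kap j s.1 s.2 * (g j s / M.P s.1 s.2)) * f' (M.ex s.1 s.2)
      ≤ ∑ s : V × Val, A * (H0 * g j s) * B := by
        refine Finset.sum_le_sum fun s _ => ?_
        calc f s.1 * (M.kap j s.1 s.2 * (g j s / M.P s.1 s.2)) * f' (M.ex s.1 s.2)
            ≤ f s.1 * (M.kap j s.1 s.2 * (g j s / M.P s.1 s.2)) * B :=
              mul_le_mul_of_nonneg_left (hf' _) (mul_nonneg (hf0 _) (h1' s))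
          _ ≤ A * (H0 * g j s) * B :=
              mul_le_mul_of_nonneg_right (mul_le_mul (hf _) (h1 s) (h1' s) hA) hB
    _ = (∑ s, g j s) * (H0 * A * B) := by
        rw [Finset.sum_mul]
        exact Finset.sum_congr rfl fun s _ => by ring
    _ ≤ N * (H0 * A * B) :=
        mul_le_mul_of_nonneg_right (hN j) (mul_nonneg (mul_nonneg h.H hA) hB)
    _ = _ := by ring

/-- The pinned expansion. -/
theorem PM.gs_le (h : M.Ok H0) {g : ℕ → V × Val → ℝ} (hg : ∀ j s, 0 ≤ g j s) {N : ℝ}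
    (hN0 : 0 ≤ N) (hN : ∀ j, ∑ s, g j s ≤ N) {E : ℕ → ℕ → ℝ} (hE : ∀ i r, 0 ≤ E i r) {a : ℕ}
    (hfk : ∀ i r x y, i + r ≤ a → M.fk i r x y ≤ E i r) :
    ∀ (r j : ℕ), j + r ≤ a → ∀ x y, M.gs g j r x y ≤
      M.fk j r x y + ∑ s ∈ Finset.range r, SW E (N * H0) (s + 1) j r := by
  intro r
  induction r using Nat.strong_induction_on with
  | _ r ih =>
    intro j hj x y
    rw [PM.gs_expand]
    refine add_le_add le_rfl ?_
    have hθ : 0 ≤ N * H0 := mul_nonneg hN0 h.H
    have h1 : ∀ t ∈ Finset.range r, ∑ s : V × Val,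
        M.fk j t x s.1 * (M.kap (j + t) s.1 s.2 * (g (j + t) s / M.P s.1 s.2)) *
          M.gs g (j + t + 1) (r - 1 - t) (M.ex s.1 s.2) y ≤
        ∑ s ∈ Finset.range r, N * H0 * E j t * SW E (N * H0) s (j + t + 1) (r - 1 - t) := by
      intro t ht
      have ht' := Finset.mem_range.1 ht
      have h2 : ∀ v, M.gs g (j + t + 1) (r - 1 - t) v y ≤
          ∑ s ∈ Finset.range r, SW E (N * H0) s (j + t + 1) (r - 1 - t) := by
        intro v
        refine (ih (r - 1 - t) (by omega) (j + t + 1) (by omega) v y).trans ?_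
        have h3 : M.fk (j + t + 1) (r - 1 - t) v y ≤ SW E (N * H0) 0 (j + t + 1) (r - 1 - t) :=
          hfk _ _ _ _ (by omega)
        calc M.fk (j + t + 1) (r - 1 - t) v y +
              ∑ s ∈ Finset.range (r - 1 - t), SW E (N * H0) (s + 1) (j + t + 1) (r - 1 - t)
            ≤ SW E (N * H0) 0 (j + t + 1) (r - 1 - t) +
              ∑ s ∈ Finset.range (r - 1 - t), SW E (N * H0) (s + 1) (j + t + 1) (r - 1 - t) :=
              add_le_add h3 le_rfl
          _ = ∑ s ∈ Finset.range (r - 1 - t + 1), SW E (N * H0) s (j + t + 1) (r - 1 - t) := by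
              rw [Finset.sum_range_succ', add_comm]
          _ ≤ ∑ s ∈ Finset.range r, SW E (N * H0) s (j + t + 1) (r - 1 - t) :=
              Finset.sum_le_sum_of_subset_of_nonneg
                (Finset.range_subset_range.2 (by omega))
                (fun s _ _ => SW_nonneg hE hθ s _ _)
      have h4 := PM.pin_le h hg hN (j + t) (hE j t)
        (Finset.sum_nonneg fun s _ => SW_nonneg hE hθ s (j + t + 1) (r - 1 - t))
        (fun v => M.fk j t x v) (fun v => M.gs g (j + t + 1) (r - 1 - t) v y)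
        (fun v => PM.fk_nonneg h j t x v) (fun v => hfk j t x v (by omega)) h2
      refine h4.trans (le_of_eq ?_)
      rw [Finset.mul_sum]
    refine (Finset.sum_le_sum h1).trans (le_of_eq ?_)
    rw [Finset.sum_comm]
    rfl

end main

end H92

end Pool.Agent.Lib.MP_688fd0_co.TE
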